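import Pool.Agent.L0h24.UY.CUT
import Pool.Agent.L0h78.UY.FST
import Pool.Agent.L0h90.UY.RNK

/-!
# The lower bound for unambiguous 1-limited automata: the assembly
-/

set_option autoImplicit false

namespace Pool.Agent.L0h32.UY

theorem t_CUT : S_CUT := Pool.Agent.L0h24.UY.t_CUT

theorem t_FST : S_FST := Pool.Agent.L0h78.UY.t_FST

theorem t_RNK : S_RNK := Pool.Agent.L0h90.UYR.t_RNK

end Pool.Agent.L0h32.UY
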