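import Pool.Agent.L0h32.UX.Stm
import Pool.Agent.L0h32.UZ.Stm

/-!
# The machines have no choice what to write: statements
-/

set_option autoImplicit false
set_option linter.all false

namespace Pool.Agent.L0h32.UY

open Relation
open Pool.Agent.H630R2.LA
open Pool.Agent.L0h32.UX (St Bd uM)
open Pool.Agent.L0h32.UZ (vM)

/-- What is written is determined by the input: if two computations on the same input `w` are going to visit
the same cell, which contains a letter of `w`, for the first time, then all their moves write the same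
symbol. -/
def DetWrites {A : Type} (strict : Prop) (M : LimAut A) : Prop :=
  ∀ (w : List A) (c c' : Cfg M),
    ReflTransGen (Step strict w.length) (init M w) c →
    ReflTransGen (Step strict w.length) (init M w) c' →
    1 ≤ c.pos → c.pos ≤ w.length → c'.pos = c.pos → c.pos ∉ c.seen → c'.pos ∉ c'.seen →
    ∀ q b d q' b' d', (q, b, d) ∈ M.δ c.state (c.tape c.pos) →
      (q', b', d') ∈ M.δ c'.state (c'.tape c'.pos) → b = b'

/-- DWU: the machine of the project UX (use `inv_reach` of `L0h95/UX/UNA.lean`: at a first visit the state is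
`wr x` with `WOK w t x`, so the bit is determined) -/
def S_DWU : Prop := ∀ (A : Type) [Finite A] (strict : Prop) (h : ℕ)
  (rel : A → Fin (2 ^ h) → Fin (2 ^ h) → Bool) (p0 : Fin (2 ^ h)) (facc : Fin (2 ^ h) → Bool)
  (K : ℕ) (W : ℕ → ℕ → Fin (2 ^ h) → Fin (2 ^ h) → ℕ) (N : ℕ)
  (hQ : Finite {s : St h // Bd h N s}), 0 < K →
  DetWrites strict (uM h rel p0 facc K W N hQ : LimAut A)

/-- DWV: the machine of the project UZ (use `inv_reach` of `L0h55/UZ/SNV.lean`) -/
def S_DWV : Prop := ∀ (A : Type) [Finite A] (strict : Prop) (h : ℕ)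
  (rel : A → Fin (2 ^ h) → Fin (2 ^ h) → Bool) (p0 : Fin (2 ^ h)) (facc : Fin (2 ^ h) → Bool)
  (K : ℕ) (W : ℕ → ℕ → Fin (2 ^ h) → Fin (2 ^ h) → ℕ) (N : ℕ)
  (hQ : Finite {s : St h // Bd h N s}), 0 < K →
  DetWrites strict (vM h rel p0 facc K W N hQ : LimAut A)

end Pool.Agent.L0h32.UY
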