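import Pool.Agent.L0h32.UX.All
import Pool.Agent.L0h32.UY.Stm2
import Pool.Agent.L0h24.UZ.UPV
import Pool.Agent.L0h34.UZ.MVV
import Pool.Agent.L0h39.UZ.RST
import Pool.Agent.L0h55.UZ.SNV
import Pool.Agent.L0h61.UZ.PRB
import Pool.Agent.L0h95.UZ.LIV
import Pool.Agent.L0h32.UZ.DWV

/-!
# Zero-error probabilistic 1-limited automata: the assembly
-/

set_option autoImplicit false

namespace Pool.Agent.L0h32.UY

open Pool.Agent.L0h32.UX (t_MOV t_ALL t_WGT)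
open Pool.Agent.L0h32.UZ (S_MVV S_SNV S_RST S_LIV S_PRB S_UPV)

theorem t_MVV : S_MVV := Pool.Agent.L0h34.UZ.t_MVV t_MOV Pool.Agent.L0h59.UX.t_MV0

theorem t_SNV : S_SNV := Pool.Agent.L0h55.UZ.t_SNV t_MVV Pool.Agent.L0h59.UX.t_MV0

theorem t_LIV : S_LIV := Pool.Agent.L0h95.UZ.t_LIV t_MVV Pool.Agent.L0h39.UZ.t_RST
  Pool.Agent.L0h59.UX.t_MV0 t_ALL Pool.Agent.L0h55.UX.t_BND

theorem t_PRB : S_PRB := Pool.Agent.L0h61.UZ.t_PRB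

theorem t_UPV : S_UPV := Pool.Agent.L0h24.UZ.t_UPV Pool.Agent.L0h85.UX.t_CARD t_WGT t_SNV t_LIV t_PRB

theorem t_DWV : S_DWV := Pool.Agent.L0h32.UZD.t_DWV t_MVV Pool.Agent.L0h59.UX.t_MV0

end Pool.Agent.L0h32.UY
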