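import Pool.Agent.L0h32.UY.Stm2
import Pool.Agent.L0h56.UX.UPP

/-!
# The two machines for a one-way automaton with `2 ^ h` states, and Mathlib's `NFA`
-/

set_option autoImplicit false

namespace Pool.Agent.L0h32.UY

open Relation Filter Topology
open Pool.Agent.H630R2.LA
open Pool.Agent.L0h32.UX (St Bd uM uG S_CARD S_WGT S_UNA S_CMP KB RB IsRun UniqueVerdict)
open Pool.Agent.L0h32.UZ (vM vG S_SNV S_LIV S_PRB LasVegas)
open Pool.Agent.L0h66.CX (exists_nfa size_le_all size_pos')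
open Pool.Agent.L0h56.UX (N_bound)

/-- The computation of the sizes. -/
theorem size_core {h a N q z g : ℕ} (hAh : a + 1 ≤ 2 ^ h)
    (hN : N = KB h a + 2 ^ h * ((2 * 2 ^ h + 1) * (RB h + 2)))
    (hs : z ≤ 2 ^ 7 * (q ^ 2 * (a + 1) ^ 2)) (hQ' : q ≤ 2 ^ (h + 10) * (N + 1) ^ 16) (hG : g ≤ q) :
    z + g ≤ 2 ^ (228 * h + 220) := by
  have hN1 : N + 1 ≤ 2 ^ (7 * h + 6) := by
    have e1 := N_bound (2 ^ h) a 0 (Nat.one_le_two_pow) hAh
    have e2 : 64 * (2 ^ h) ^ 7 = 2 ^ (7 * h + 6) := by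
      rw [← pow_mul, pow_add, mul_comm h 7]
      norm_num
      ring
    rw [e2] at e1
    rw [hN]
    exact e1
  have hq2 : q ≤ 2 ^ (113 * h + 106) := by
    calc q ≤ 2 ^ (h + 10) * (N + 1) ^ 16 := hQ'
      _ ≤ 2 ^ (h + 10) * (2 ^ (7 * h + 6)) ^ 16 := Nat.mul_le_mul_left _ (Nat.pow_le_pow_left hN1 16)
      _ = 2 ^ (113 * h + 106) := by
          rw [← pow_mul, ← pow_add]
          congr 1
          ring
  have hz : z ≤ 2 ^ (228 * h + 219) := by
    calc z ≤ 2 ^ 7 * (q ^ 2 * (a + 1) ^ 2) := hs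
      _ ≤ 2 ^ 7 * ((2 ^ (113 * h + 106)) ^ 2 * (2 ^ h) ^ 2) :=
          Nat.mul_le_mul_left _ (Nat.mul_le_mul (Nat.pow_le_pow_left hq2 2)
            (Nat.pow_le_pow_left hAh 2))
      _ = 2 ^ (228 * h + 219) := by
          rw [← pow_mul, ← pow_mul, ← pow_add, ← pow_add]
          congr 1
          ring
  have hg : g ≤ 2 ^ (228 * h + 219) :=
    (hG.trans hq2).trans (Nat.pow_le_pow_right (by norm_num) (by omega))
  calc z + g ≤ 2 ^ (228 * h + 219) + 2 ^ (228 * h + 219) := Nat.add_le_add hz hg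
    _ = 2 ^ (228 * h + 220) := by rw [pow_succ]; ring

/-- The unambiguous self-verifying machine. -/
theorem core_u (hC : S_CARD) (hW : S_WGT) (hU : S_UNA) (hP : S_CMP) (hD : S_DWU)
    {A : Type} [Finite A] (strict : Prop) (h : ℕ) (rel : A → Fin (2 ^ h) → Fin (2 ^ h) → Bool)
    (p0 : Fin (2 ^ h)) (facc : Fin (2 ^ h) → Bool) (hA : Nat.card A + 1 ≤ 2 ^ h) :
    ∃ (M' : LimAut A) (G : Set M'.Q), UniqueVerdict strict M' G ∧ DetWrites strict M' ∧
      (∀ w, w ∈ M'.language strict ↔ ∃ f, facc f = true ∧ nr h rel p0 w w.length f) ∧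
      M'.size + G.ncard ≤ 2 ^ (228 * h + 220) := by
  obtain ⟨W, hWR, hWG⟩ := hW A h rel p0
  obtain ⟨N, hN⟩ : ∃ N, N = KB h (Nat.card A) + 2 ^ h * ((2 * 2 ^ h + 1) * (RB h + 2)) := ⟨_, rfl⟩
  obtain ⟨hQ, hQc⟩ := hC h N
  have hK0 : 0 < KB h (Nat.card A) := by unfold KB; omega
  have hun := hU A strict h rel p0 facc (KB h (Nat.card A)) W N hQ
  have hex := hP A strict h rel p0 facc (KB h (Nat.card A)) W (RB h) N hQ
  refine ⟨uM h rel p0 facc (KB h (Nat.card A)) W N hQ, uG h rel p0 facc (KB h (Nat.card A)) W N hQ,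
    ⟨?_, ?_⟩, hD A strict h rel p0 facc (KB h (Nat.card A)) W N hQ hK0, ?_, ?_⟩
  · rw [Set.disjoint_left]
    intro q hq1 hq2
    have e1 : q.1 = .fin true := hq1
    have e2 : q.1 = .fin false := hq2
    rw [e1] at e2
    cases e2
  · intro w
    obtain ⟨c, hc1, hc2, hc3⟩ := hex w hWR hN.ge hWG
    obtain ⟨l, hl1, hl2⟩ := List.exists_isChain_cons_of_relationReflTransGen hc1
    have hrun : IsRun strict (uM h rel p0 facc (KB h (Nat.card A)) W N hQ)
        (uG h rel p0 facc (KB h (Nat.card A)) W N hQ) w (init _ w :: l) := by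
      refine ⟨rfl, hl1, c, ?_, hc2, ?_⟩
      · rw [List.getLast?_eq_getLast_of_ne_nil (List.cons_ne_nil _ _), hl2]
      · rcases hc3 with h5 | h5
        · exact Or.inl h5
        · exact Or.inr h5
    exact ⟨_, hrun, fun r' hr' => (hun w hK0).1 r' _ hr' hrun⟩
  · intro w
    constructor
    · rintro ⟨c, hc1, hc2, hc3⟩
      exact ((hun w hK0).2 c hc1).1 hc3
    · intro hf
      obtain ⟨c, hc1, hc2, hc3⟩ := hex w hWR hN.ge hWG
      rcases hc3 with h5 | h5
      · exact ⟨c, hc1, hc2, h5⟩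
      · exact absurd hf (((hun w hK0).2 c hc1).2 h5)
  · have hs := size_le_all (uM h rel p0 facc (KB h (Nat.card A)) W N hQ) (card_WS A)
    have hQ' : Nat.card (uM h rel p0 facc (KB h (Nat.card A)) W N hQ).Q ≤
        2 ^ (h + 10) * (N + 1) ^ 16 := hQc
    have hG : (uG h rel p0 facc (KB h (Nat.card A)) W N hQ).ncard ≤
        Nat.card (uM h rel p0 facc (KB h (Nat.card A)) W N hQ).Q := by
      have : Finite (uM h rel p0 facc (KB h (Nat.card A)) W N hQ).Q := hQ
      exact (Set.ncard_le_ncard (Set.subset_univ (uG h rel p0 facc (KB h (Nat.card A)) W N hQ))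
        (Set.finite_univ (α := (uM h rel p0 facc (KB h (Nat.card A)) W N hQ).Q))).trans
        (Set.ncard_univ _).le
    exact size_core hA hN hs hQ' hG

/-- The zero-error machine. -/
theorem core_v (hC : S_CARD) (hW : S_WGT) (hS : S_SNV) (hL : S_LIV) (hP : S_PRB) (hD : S_DWV)
    {A : Type} [Finite A] (strict : Prop) (h : ℕ) (rel : A → Fin (2 ^ h) → Fin (2 ^ h) → Bool)
    (p0 : Fin (2 ^ h)) (facc : Fin (2 ^ h) → Bool) (hA : Nat.card A + 1 ≤ 2 ^ h) :
    ∃ (M' : LimAut A) (G : Set M'.Q), LasVegas strict M' G ∧ DetWrites strict M' ∧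
      (∀ w, w ∈ M'.language strict ↔ ∃ f, facc f = true ∧ nr h rel p0 w w.length f) ∧
      M'.size + G.ncard ≤ 2 ^ (228 * h + 220) := by
  obtain ⟨W, hWR, hWG⟩ := hW A h rel p0
  obtain ⟨N, hN⟩ : ∃ N, N = KB h (Nat.card A) + 2 ^ h * ((2 * 2 ^ h + 1) * (RB h + 2)) := ⟨_, rfl⟩
  obtain ⟨hQ, hQc⟩ := hC h N
  have hK0 : 0 < KB h (Nat.card A) := by unfold KB; omega
  have hsn := hS A strict h rel p0 facc (KB h (Nat.card A)) W N hQ
  have hli := fun w => hL A strict h rel p0 facc (KB h (Nat.card A)) W (RB h) N hQ w hWR hN.ge hWG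
  refine ⟨vM h rel p0 facc (KB h (Nat.card A)) W N hQ, vG h rel p0 facc (KB h (Nat.card A)) W N hQ,
    ⟨?_, ?_⟩, hD A strict h rel p0 facc (KB h (Nat.card A)) W N hQ hK0, ?_, ?_⟩
  · rintro w ⟨⟨c, hc1, hc2, hc3⟩, c', hc1', hc2', hc3'⟩
    exact ((hsn w hK0 c' hc1').2 hc3') ((hsn w hK0 c hc1).1 hc3)
  · intro w
    apply hP
    intro c hc
    obtain ⟨c', h1, h2, h3⟩ := hli w c hc
    refine ⟨c', h1, h2, ?_⟩
    rcases h3 with h5 | h5
    · exact Or.inl h5
    · exact Or.inr h5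
  · intro w
    constructor
    · rintro ⟨c, hc1, hc2, hc3⟩
      exact (hsn w hK0 c hc1).1 hc3
    · intro hf
      obtain ⟨c, hc1, hc2, hc3⟩ := hli w _ ReflTransGen.refl
      rcases hc3 with h5 | h5
      · exact ⟨c, hc1, hc2, h5⟩
      · exact absurd hf ((hsn w hK0 c hc1).2 h5)
  · have hs := size_le_all (vM h rel p0 facc (KB h (Nat.card A)) W N hQ) (card_WS A)
    have hQ' : Nat.card (vM h rel p0 facc (KB h (Nat.card A)) W N hQ).Q ≤
        2 ^ (h + 10) * (N + 1) ^ 16 := hQc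
    have hG : (vG h rel p0 facc (KB h (Nat.card A)) W N hQ).ncard ≤
        Nat.card (vM h rel p0 facc (KB h (Nat.card A)) W N hQ).Q := by
      have : Finite (vM h rel p0 facc (KB h (Nat.card A)) W N hQ).Q := hQ
      exact (Set.ncard_le_ncard (Set.subset_univ (vG h rel p0 facc (KB h (Nat.card A)) W N hQ))
        (Set.finite_univ (α := (vM h rel p0 facc (KB h (Nat.card A)) W N hQ).Q))).trans
        (Set.ncard_univ _).le
    exact size_core hA hN hs hQ' hG

/-- A 1-limited automaton of size at most `n` as a one-way automaton with `2 ^ (n ^ 2)` states. -/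
theorem la_rel {A : Type} [Finite A] (strict : Prop) (M : LimAut A) (n : ℕ) (hn : M.size ≤ n) :
    Nat.card A + 1 ≤ 2 ^ (n ^ 2) ∧ 228 * n ^ 2 + 220 ≤ 300 * n ^ 2 ∧
    ∃ (rel : A → Fin (2 ^ (n ^ 2)) → Fin (2 ^ (n ^ 2)) → Bool) (p0 : Fin (2 ^ (n ^ 2)))
      (facc : Fin (2 ^ (n ^ 2)) → Bool),
      ∀ w : List A, w ∈ M.language strict ↔
        ∃ f, facc f = true ∧ nr (n ^ 2) rel p0 w w.length f := by
  have := M.finQ
  obtain ⟨h4, hq, hq1⟩ := size_pos' M
  have hn4 : 4 ≤ n := h4.trans hn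
  have hcard : Nat.card (Set (M.Q × M.Q) × M.Q) ≤ 2 ^ (n ^ 2) := by
    rw [card_table]
    calc 2 ^ (Nat.card M.Q * Nat.card M.Q) * Nat.card M.Q
        ≤ 2 ^ (Nat.card M.Q * Nat.card M.Q) * 2 ^ (Nat.card M.Q) :=
          Nat.mul_le_mul_left _ (Nat.lt_two_pow_self).le
      _ = 2 ^ (Nat.card M.Q * Nat.card M.Q + Nat.card M.Q) := by rw [pow_add]
      _ ≤ 2 ^ (n ^ 2) := by
          apply Nat.pow_le_pow_right (by omega)
          nlinarith
  refine ⟨?_, by nlinarith, exists_nfa M strict hcard⟩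
  calc Nat.card A + 1 ≤ n := by omega
    _ ≤ n ^ 2 := Nat.le_self_pow (by norm_num) n
    _ ≤ 2 ^ (n ^ 2) := (Nat.lt_two_pow_self).le

open Classical in
/-- Mathlib's nondeterministic automata. -/
theorem nfa_rel {A σ : Type} [Finite σ] (P : NFA A σ) (h : ℕ) (hc : Nat.card σ + 1 ≤ 2 ^ h) :
    ∃ (rel : A → Fin (2 ^ h) → Fin (2 ^ h) → Bool) (p0 : Fin (2 ^ h)) (facc : Fin (2 ^ h) → Bool),
      ∀ w : List A, w ∈ P.accepts ↔ ∃ f, facc f = true ∧ nr h rel p0 w w.length f := by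
  obtain ⟨e⟩ : Nonempty (Option σ ↪ Fin (2 ^ h)) := by
    have e1 := Finite.equivFin (Option σ)
    have e2 : Nat.card (Option σ) ≤ 2 ^ h := by
      rw [Finite.card_option]
      exact hc
    exact ⟨e1.toEmbedding.trans (Fin.castLEEmb e2)⟩
  let S : Option σ → Set σ := fun x => match x with
    | none => P.start
    | some q => {q}
  refine ⟨fun a i j => decide (∃ x y, e x = i ∧ e (some y) = j ∧ y ∈ P.stepSet (S x) a), e none,
    fun i => decide (∃ x, e x = i ∧ (S x ∩ P.accept).Nonempty), fun w => ?_⟩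
  have key : ∀ t, t ≤ w.length → ∀ i, nr h (fun a i j => decide (∃ x y, e x = i ∧ e (some y) = j ∧
      y ∈ P.stepSet (S x) a)) (e none) w t i ↔
      ∃ x, e x = i ∧ ((t = 0 ∧ x = none) ∨ (0 < t ∧ ∃ q, x = some q ∧ q ∈ P.eval (w.take t))) := by
    intro t
    induction t with
    | zero =>
      intro _ i
      constructor
      · intro hi
        have hi' : i = e none := hi
        exact ⟨none, hi'.symm, Or.inl ⟨rfl, rfl⟩⟩
      · rintro ⟨x, rfl, ⟨_, rfl⟩ | ⟨h1, _⟩⟩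
        · rfl
        · omega
    | succ t ih =>
      intro ht i
      have hwt : w[t]? = some w[t] := List.getElem?_eq_getElem (by omega)
      have htake : w.take (t + 1) = w.take t ++ [w[t]] := by
        rw [List.take_succ_eq_append_getElem (by omega)]
      have hev : P.eval (w.take (t + 1)) = P.stepSet (P.eval (w.take t)) w[t] := by
        rw [htake, NFA.eval_append_singleton]
      constructor
      · rintro ⟨p, hp, a, ha, hr⟩
        rw [hwt] at ha
        obtain rfl : w[t] = a := Option.some.inj ha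
        simp only [decide_eq_true_eq] at hr
        obtain ⟨x, y, hx, hy, hxy⟩ := hr
        obtain ⟨x', hx', h1⟩ := (ih (by omega) p).1 hp
        have e3 : x' = x := e.injective (hx'.trans hx.symm)
        subst e3
        refine ⟨some y, hy, Or.inr ⟨by omega, y, rfl, ?_⟩⟩
        rw [hev]
        rcases h1 with ⟨rfl, rfl⟩ | ⟨_, q, rfl, hq⟩
        · simpa [S] using hxy
        · rw [NFA.mem_stepSet] at hxy ⊢
          obtain ⟨q', hq', hs⟩ := hxy
          have e4 : q' = q := by simpa [S] using hq'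
          subst e4
          exact ⟨q', hq, hs⟩
      · rintro ⟨x, rfl, ⟨h1, _⟩ | ⟨_, q, rfl, hq⟩⟩
        · omega
        · rw [hev, NFA.mem_stepSet] at hq
          obtain ⟨q', hq', hs⟩ := hq
          rcases Nat.eq_zero_or_pos t with h0 | h0
          · subst h0
            refine ⟨e none, (ih (by omega) _).2 ⟨none, rfl, Or.inl ⟨rfl, rfl⟩⟩, w[0], hwt, ?_⟩
            simp only [decide_eq_true_eq]
            refine ⟨none, q, rfl, rfl, ?_⟩
            rw [NFA.mem_stepSet]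
            exact ⟨q', by simpa using hq', hs⟩
          · refine ⟨e (some q'), (ih (by omega) _).2 ⟨some q', rfl, Or.inr ⟨h0, q', rfl, hq'⟩⟩,
              w[t], hwt, ?_⟩
            simp only [decide_eq_true_eq]
            refine ⟨some q', q, rfl, rfl, ?_⟩
            rw [NFA.mem_stepSet]
            exact ⟨q', rfl, hs⟩
  have hacc : w ∈ P.accepts ↔ ∃ s ∈ P.eval w, s ∈ P.accept := by
    rw [NFA.mem_accepts]
    constructor
    · rintro ⟨s, h1, h2⟩
      exact ⟨s, h2, h1⟩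
    · rintro ⟨s, h1, h2⟩
      exact ⟨s, h2, h1⟩
  rw [hacc]
  constructor
  · rintro ⟨s, hs, hsa⟩
    rcases Nat.eq_zero_or_pos w.length with h0 | h0
    · have hw : w = [] := List.eq_nil_of_length_eq_zero h0
      subst hw
      refine ⟨e none, ?_, rfl⟩
      simp only [decide_eq_true_eq]
      exact ⟨none, rfl, s, by simpa [S] using hs, hsa⟩
    · refine ⟨e (some s), ?_, (key w.length le_rfl _).2 ⟨some s, rfl, Or.inr ⟨h0, s, rfl, ?_⟩⟩⟩
      · simp only [decide_eq_true_eq]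
        exact ⟨some s, rfl, s, rfl, hsa⟩
      · rw [List.take_length]
        exact hs
  · rintro ⟨f, hf, hn⟩
    simp only [decide_eq_true_eq] at hf
    obtain ⟨x, hx, s, hs1, hs2⟩ := hf
    obtain ⟨x', hx', h1⟩ := (key w.length le_rfl _).1 hn
    have e3 : x' = x := e.injective (hx'.trans hx.symm)
    subst e3
    rcases h1 with ⟨h0, rfl⟩ | ⟨_, q, rfl, hq⟩
    · have hw : w = [] := List.eq_nil_of_length_eq_zero h0
      subst hw
      exact ⟨s, by simpa [S] using hs1, hs2⟩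
    · rw [List.take_length] at hq
      have e4 : s = q := by simpa [S] using hs1
      subst e4
      exact ⟨s, hq, hs2⟩

/-- The size for `2 ^ h ≤ 2 r`. -/
theorem exists_h (r : ℕ) (hr : 1 ≤ r) :
    ∃ h, r ≤ 2 ^ h ∧ 2 ^ (228 * h + 220) ≤ (2 * r) ^ 448 := by
  refine ⟨Nat.clog 2 r, Nat.le_pow_clog (by norm_num) r, ?_⟩
  have h1 : 2 ^ Nat.clog 2 r ≤ 2 * r := by
    rcases Nat.eq_or_lt_of_le hr with h2 | h2
    · subst h2
      simp
    · have h3 := Nat.pow_pred_clog_lt_self (b := 2) (by norm_num) h2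
      have h4 : 0 < Nat.clog 2 r := Nat.clog_pos (by norm_num) h2
      have h5 : 2 ^ Nat.clog 2 r = 2 * 2 ^ (Nat.clog 2 r).pred := by
        rw [← pow_succ']
        exact congrArg _ (Nat.succ_pred_eq_of_pos h4).symm
      rw [h5]
      omega
  calc 2 ^ (228 * Nat.clog 2 r + 220) = (2 ^ Nat.clog 2 r) ^ 228 * 2 ^ 220 := by
        rw [← pow_mul, ← pow_add]
        congr 1
        ring
    _ ≤ (2 * r) ^ 228 * (2 * r) ^ 220 :=
        Nat.mul_le_mul (Nat.pow_le_pow_left h1 228) (Nat.pow_le_pow_left (by omega) 220)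
    _ = (2 * r) ^ 448 := by rw [← pow_add]

end Pool.Agent.L0h32.UY
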