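import Pool.Agent.L0h32.UX.All
import Pool.Agent.L0h32.UY.Core
import Pool.Agent.L0h39.UY.DWU

/-!
# The symbols written by the unambiguous machine are determined: the assembly
-/

set_option autoImplicit false

namespace Pool.Agent.L0h32.UY

open Pool.Agent.L0h32.UX (t_MOV)

theorem t_DWU : S_DWU := Pool.Agent.L0h39.UY.t_DWU Pool.Agent.L0h59.UX.t_MV0 t_MOV

end Pool.Agent.L0h32.UY
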