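import Pool.Agent.L0h32.UX.Stm
import Pool.Agent.H630R2.LA.Nerode

/-!
# Project UY: lower bound for unambiguous 1-limited automata, the statements of the modules
-/

set_option autoImplicit false
set_option linter.all false

namespace Pool.Agent.L0h32.UY

open Relation
open Pool.Agent.H630R2.LA
open Pool.Agent.L0h32.UX (IsRun)

/-- CUT: a run of the table automaton through `z` at the boundary between `x` and `y` comes from an accepting
computation that enters the first cell of `y` for the first time with the state and the table of `z`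
(refinement of `backward` in `H630R2/LA/Tab.lean`) -/
def S_CUT : Prop := ∀ (A : Type) (strict : Prop) (M : LimAut A) (x y : List A)
  (z z' : Set (M.Q × M.Q) × M.Q), runs strict M x (x0 strict M) z → runs strict M y z z' →
  finX strict M z' → ∃ r, IsRun strict M ∅ (x ++ y) r ∧ ∃ c ∈ r, c.pos = x.length + 1 ∧
    x.length + 1 ∉ c.seen ∧ c.state = z.2 ∧ Tab strict M c.tape x.length = z.1

/-- FST: a cell is visited for the first time only once -/
def S_FST : Prop := ∀ (A : Type) (strict : Prop) (M : LimAut A) (G : Set M.Q) (w : List A)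
  (r : List (Cfg M)) (k : ℕ), IsRun strict M G w r → ∀ c ∈ r, ∀ c' ∈ r, c.pos = k → k ∉ c.seen →
  c'.pos = k → k ∉ c'.seen → c = c'

/-- RNK: the rank of the matrix `¬ G ⊆ H` -/
def S_RNK : Prop := ∀ (T Λ : Type) [Finite T] [Finite Λ] (a : Set T → Λ → Prop)
  (b : Λ → Set T → Prop), (∀ G H, (∃ l, a G l ∧ b l H) ↔ ¬ G ⊆ H) →
  (∀ G H l l', a G l → b l H → a G l' → b l' H → l = l') → Nat.card (Set T) ≤ Nat.card Λ + 1

end Pool.Agent.L0h32.UY
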