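import Pool.Agent.L0h32.UX.Cost
import Pool.Agent.L0h32.UY.Stm

/-!
# The cost of making 1-limited automata unambiguous
-/

set_option autoImplicit false

namespace Pool.Agent.L0h32.UY

open Relation
open Pool.Agent.H630R2.LA
open Pool.Agent.TH705.LB
open Pool.Agent.N602.FT
open Pool.Agent.L0h32.UX

/-- The automaton `M` is unambiguous: on every word there is at most one accepting computation. -/
def Unambiguous {A : Type} (strict : Prop) (M : LimAut A) : Prop :=
  ∀ (w : List A) (r r' : List (Cfg M)), IsRun strict M ∅ w r → IsRun strict M ∅ w r' → r = r'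

/-- The least size of an unambiguous automaton for `L`. -/
noncomputable def uaSize {A : Type} (strict : Prop) (L : Set (List A)) : ℕ :=
  sInf {s | ∃ M : LimAut A, Unambiguous strict M ∧ M.language strict = L ∧ M.size = s}

/-- The sizes `uaSize L(M)` for the 1-limited automata `M` of size at most `n`. -/
def uaCosts (strict : Prop) (n : ℕ) : Set ℕ :=
  {s | ∃ (A : Type) (_ : Finite A) (M : LimAut A), M.size ≤ n ∧
    s = uaSize strict (M.language strict)}

/-- The worst-case cost of the conversion of 1-limited automata into unambiguous ones. -/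
noncomputable def UA (strict : Prop) (n : ℕ) : ℕ := sSup (uaCosts strict n)

theorem ua_of_uv {A : Type} {strict : Prop} {M : LimAut A} {G : Set M.Q}
    (h : UniqueVerdict strict M G) : Unambiguous strict M := fun _ _ _ h1 h2 => h.unamb h1 h2

section low

variable (hC : S_CUT) (hF : S_FST) (hR : S_RNK)

include hC hF hR in
/-- The lower bound for the number of states. -/
theorem low_states (m : ℕ) (strict : Prop) (M : LimAut (BL Ltr)) (hu : Unambiguous strict M)
    (hM : M.language strict = (bwit m).language strict) :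
    2 ^ 2 ^ (m ^ 2) ≤ 2 ^ (Nat.card M.Q ^ 2) * Nat.card M.Q + 1 := by
  have hfin := M.finQ
  have hfin2 : Finite (Set (M.Q × M.Q)) := inferInstance
  have h1 := hR (Mat m) (Set (M.Q × M.Q) × M.Q)
    (fun G l => runs strict M (lft G 0) (x0 strict M) l)
    (fun l H => ∃ z', runs strict M (rgt H 0) l z' ∧ finX strict M z') ?_ ?_
  · rw [card_sets m, Nat.card_prod] at h1
    have h2 : Nat.card (Set (M.Q × M.Q)) = 2 ^ (Nat.card M.Q ^ 2) := by
      have e : Nat.card (Set (M.Q × M.Q)) = Nat.card (M.Q × M.Q → Prop) := rfl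
      rw [e, Nat.card_fun, Nat.card_prod, sq]
      simp
    rwa [h2] at h1
  · intro G H
    have h2 : lft G 0 ++ rgt H 0 ∈ M.language strict ↔ ¬ G ⊆ H := by
      rw [hM, mem_lft_rgt, Set.not_subset]
    rw [← h2, mem_language_runs]
    constructor
    · rintro ⟨l, h3, z', h4, h5⟩
      exact ⟨z', (runs_append _ _ _ _).2 ⟨l, h3, h4⟩, h5⟩
    · rintro ⟨z', h3, h4⟩
      obtain ⟨l, h5, h6⟩ := (runs_append _ _ _ _).1 h3
      exact ⟨l, h5, z', h6, h4⟩
  · rintro G H l l' h2 ⟨z, h3, h4⟩ h5 ⟨z', h6, h7⟩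
    obtain ⟨r, hr, c, hc, c1, c2, c3, c4⟩ := hC _ strict M _ _ l z h2 h3 h4
    obtain ⟨r', hr', c', hc', c1', c2', c3', c4'⟩ := hC _ strict M _ _ l' z' h5 h6 h7
    have e := hu _ r r' hr hr'
    subst e
    have e2 := hF _ strict M ∅ _ r _ hr c hc c' hc' c1 c2 c1' c2'
    subst e2
    exact Prod.ext (c4.symm.trans c4') (c3.symm.trans c3')

include hC hF hR in
theorem low_size (m : ℕ) (strict : Prop) (M : LimAut (BL Ltr)) (hu : Unambiguous strict M)
    (hM : M.language strict = (bwit m).language strict) : 2 ^ (m ^ 2) ≤ M.size ^ 2 := by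
  have h1 := low_states hC hF hR m strict M hu hM
  have h2 : Nat.card M.Q + 3 ≤ M.size := by
    unfold LimAut.size
    omega
  have h3 : 2 ^ 2 ^ (m ^ 2) ≤ 2 ^ (M.size ^ 2) := by
    refine h1.trans ?_
    calc 2 ^ (Nat.card M.Q ^ 2) * Nat.card M.Q + 1
        ≤ 2 ^ (Nat.card M.Q ^ 2) * Nat.card M.Q + 2 ^ (Nat.card M.Q ^ 2) * 1 := by
          have : 1 ≤ 2 ^ (Nat.card M.Q ^ 2) := Nat.one_le_two_pow
          omega
      _ = 2 ^ (Nat.card M.Q ^ 2) * (Nat.card M.Q + 1) := by ring
      _ ≤ 2 ^ (Nat.card M.Q ^ 2) * 2 ^ Nat.card M.Q :=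
          Nat.mul_le_mul_left _ (Nat.lt_two_pow_self)
      _ = 2 ^ (Nat.card M.Q ^ 2 + Nat.card M.Q) := by rw [pow_add]
      _ ≤ 2 ^ (M.size ^ 2) := by
          apply Nat.pow_le_pow_right (by omega)
          nlinarith
  exact (Nat.pow_le_pow_iff_right (by norm_num)).1 h3

end low

section final

variable (hP : S_UPP) (strict : Prop)

include hP in
theorem ua_le_uv {A : Type} [Finite A] (M : LimAut A) :
    uaSize strict (M.language strict) ≤ uvSize strict (M.language strict) := by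
  have hne : {s | ∃ (M' : LimAut A) (G : Set M'.Q), UniqueVerdict strict M' G ∧
      M'.language strict = M.language strict ∧ M'.size + G.ncard = s}.Nonempty := by
    obtain ⟨M', G, h1, h2, _⟩ := hP A strict M M.size le_rfl
    exact ⟨_, M', G, h1, h2, rfl⟩
  obtain ⟨M', G, h1, h2, h3⟩ := Nat.sInf_mem hne
  have h4 : M'.size + G.ncard = uvSize strict (M.language strict) := h3
  rw [← h4]
  exact le_trans (Nat.sInf_le ⟨M', ua_of_uv h1, h2, rfl⟩) (Nat.le_add_right _ _)

include hP in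
theorem uaCosts_le (n s : ℕ) (hs : s ∈ uaCosts strict n) : s ≤ U strict n := by
  obtain ⟨A, hA, M, hM, rfl⟩ := hs
  exact (ua_le_uv hP strict M).trans (le_csSup (bdd_uv hP strict n) ⟨A, hA, M, hM, rfl⟩)

include hP in
theorem bdd_ua (n : ℕ) : BddAbove (uaCosts strict n) := ⟨_, fun s hs => uaCosts_le hP strict n s hs⟩

include hP in
theorem UA_greatest (n : ℕ) (hn : 4 ≤ n) : IsGreatest (uaCosts strict n) (UA strict n) := by
  have hne : (uaCosts strict n).Nonempty :=
    ⟨_, Empty, inferInstance, trivM, by rw [size_trivM]; exact hn, rfl⟩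
  exact ⟨Nat.sSup_mem hne (bdd_ua hP strict n), fun s hs => le_csSup (bdd_ua hP strict n) hs⟩

include hP in
theorem UA_le_U (n : ℕ) : UA strict n ≤ U strict n := by
  rcases (uaCosts strict n).eq_empty_or_nonempty with h | h
  · unfold UA
    rw [h]
    simp
  · exact csSup_le h fun s hs => uaCosts_le hP strict n s hs

include hP in
theorem UA_lower (hC : S_CUT) (hF : S_FST) (hR : S_RNK) (n : ℕ) (hn : 680000 ≤ n) :
    2 ^ (n ^ 2 / (2 * 10 ^ 11)) ≤ UA strict n := by
  obtain ⟨m, hm, h1, h2⟩ : ∃ m, 3 ≤ m ∧ 170000 * (m + 1) ≤ n ∧ n < 170000 * (m + 2) :=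
    ⟨n / 170000 - 1, by omega, by omega, by omega⟩
  have hmem : uaSize strict ((bwit m).language strict) ∈ uaCosts strict n :=
    ⟨BL Ltr, inferInstance, bwit m, (size_bwit m).trans h1, rfl⟩
  refine le_trans ?_ (le_csSup (bdd_ua hP strict n) hmem)
  have hne : {s | ∃ M : LimAut (BL Ltr), Unambiguous strict M ∧
      M.language strict = (bwit m).language strict ∧ M.size = s}.Nonempty := by
    obtain ⟨M', G, h3, h4, _⟩ := hP (BL Ltr) strict (bwit m) _ le_rfl
    exact ⟨_, M', ua_of_uv h3, h4, rfl⟩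
  obtain ⟨M', h3, h4, h5⟩ := Nat.sInf_mem hne
  have h5' : M'.size = uaSize strict ((bwit m).language strict) := h5
  rw [← h5']
  have h6 := low_size hC hF hR m strict M' h3 h4
  have h7 : 2 * (n ^ 2 / (2 * 10 ^ 11)) ≤ m ^ 2 := by
    have h8 : n ^ 2 ≤ 10 ^ 11 * m ^ 2 := by
      have h9 : n ^ 2 ≤ (170000 * (m + 2)) ^ 2 := Nat.pow_le_pow_left h2.le 2
      refine h9.trans ?_
      obtain ⟨r, rfl⟩ : ∃ r, m = 3 + r := ⟨m - 3, by omega⟩
      nlinarith [Nat.zero_le r, Nat.zero_le (r ^ 2)]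
    have h10 : n ^ 2 / (2 * 10 ^ 11) * (2 * 10 ^ 11) ≤ n ^ 2 := Nat.div_mul_le_self _ _
    omega
  have h8 : (2 ^ (n ^ 2 / (2 * 10 ^ 11))) ^ 2 ≤ M'.size ^ 2 := by
    refine le_trans ?_ h6
    rw [← pow_mul]
    exact Nat.pow_le_pow_right (by omega) (by omega)
  exact (Nat.pow_le_pow_iff_left (by norm_num)).1 h8

end final

end Pool.Agent.L0h32.UY
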